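import Mathlib
import Pool.Agent.H8.Dist.Left

/-!
# Localizations of a distributive domain inside its division ring of fractions

`V ι M` is the localization of `A` at the maximal ideal `M` (left fractions), `mm ι M` its maximal
ideal and `VV ι M N` the product `V_M V_N` inside the division ring `D`.
-/

universe u

namespace Pool.Agent.H34.Dist

open Pool.Agent.H8.Dist

section basics
variable {A : Type u} [Ring A] {D : Type u} [DivisionRing D] (ι : A →+* D)

/-- the localization at `M` -/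
def V (M : Set A) : Set D := {d | ∃ s, s ∉ M ∧ ∃ a, ι s * d = ι a}

/-- the maximal ideal of the localization at `M` -/
def mm (M : Set A) : Set D := {d | ∃ s, s ∉ M ∧ ∃ a ∈ M, ι s * d = ι a}

/-- the product `V_M V_N` -/
def VV (M N : Set A) : Set D := {d | ∃ s, s ∉ M ∧ ∃ t, t ∉ N ∧ ∃ a, ι s * d * ι t = ι a}

variable {ι}
variable {M N : Set A}

theorem ne_of_notMem (hι : Function.Injective ι) (hM : IsRes A M) {s : A} (hs : s ∉ M) :
    ι s ≠ 0 := by
  intro h
  apply hs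
  have : s = 0 := hι (by rw [h, map_zero])
  rw [this]; exact hM.zero

theorem V_of_right (hι : Function.Injective ι) (hL : LD A) (hM : IsRes A M) {d : D} {s a : A}
    (hs : s ∉ M) (h : d * ι s = ι a) : d ∈ V ι M := by
  obtain ⟨t, b, ht, hb⟩ := ore_left hL hM a s hs
  refine ⟨t, ht, b, ?_⟩
  apply mul_right_cancel₀ (ne_of_notMem hι hM hs)
  rw [mul_assoc, h, ← map_mul, hb, map_mul]

theorem V_right (hι : Function.Injective ι) (hR : RD A) (hM : IsRes A M) {d : D}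
    (h : d ∈ V ι M) : ∃ s, s ∉ M ∧ ∃ a, d * ι s = ι a := by
  obtain ⟨s, hs, a, h⟩ := h
  obtain ⟨t, b, ht, hb⟩ := ore_right hR hM a s hs
  refine ⟨t, ht, b, ?_⟩
  apply mul_left_cancel₀ (ne_of_notMem hι hM hs)
  rw [← mul_assoc, h, ← map_mul, hb, map_mul]

theorem mm_of_right (hι : Function.Injective ι) (hL : LD A) (hM : IsRes A M) {d : D} {s a : A}
    (hs : s ∉ M) (ha : a ∈ M) (h : d * ι s = ι a) : d ∈ mm ι M := by
  obtain ⟨t, b, ht, hb⟩ := ore_left hL hM a s hs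
  refine ⟨t, ht, b, ?_, ?_⟩
  · by_contra hbM
    apply hM.prime hbM hs
    rw [← hb]
    exact hM.mul_left _ _ ha
  · apply mul_right_cancel₀ (ne_of_notMem hι hM hs)
    rw [mul_assoc, h, ← map_mul, hb, map_mul]

theorem mm_sub_V {d : D} (h : d ∈ mm ι M) : d ∈ V ι M := by
  obtain ⟨s, hs, a, -, h⟩ := h
  exact ⟨s, hs, a, h⟩

theorem map_mem_V (hM : IsRes A M) (a : A) : ι a ∈ V ι M := ⟨1, hM.one, a, by simp⟩

theorem map_mem_mm (hM : IsRes A M) {a : A} (ha : a ∈ M) : ι a ∈ mm ι M :=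
  ⟨1, hM.one, a, ha, by simp⟩

theorem zero_mem_V (hM : IsRes A M) : (0 : D) ∈ V ι M := by
  rw [← map_zero ι]; exact map_mem_V hM 0

theorem one_mem_V (hM : IsRes A M) : (1 : D) ∈ V ι M := by
  rw [← map_one ι]; exact map_mem_V hM 1

theorem zero_mem_mm (hM : IsRes A M) : (0 : D) ∈ mm ι M := by
  rw [← map_zero ι]; exact map_mem_mm hM hM.zero

theorem V_mul (hL : LD A) (hM : IsRes A M) {d e : D}
    (hd : d ∈ V ι M) (he : e ∈ V ι M) : d * e ∈ V ι M := by
  obtain ⟨s, hs, a, hd⟩ := hd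
  obtain ⟨t, ht, b, he⟩ := he
  obtain ⟨t', a', ht', ha'⟩ := ore_left hL hM a t ht
  refine ⟨t' * s, hM.prime ht' hs, a' * b, ?_⟩
  rw [map_mul, mul_assoc, ← mul_assoc (ι s), hd, ← mul_assoc, ← map_mul, ha', map_mul, mul_assoc,
    he, map_mul]

theorem mm_mul (hL : LD A) (hM : IsRes A M) {d e : D}
    (hd : d ∈ V ι M) (he : e ∈ mm ι M) : d * e ∈ mm ι M := by
  obtain ⟨s, hs, a, hd⟩ := hd
  obtain ⟨t, ht, b, hb, he⟩ := he
  obtain ⟨t', a', ht', ha'⟩ := ore_left hL hM a t ht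
  refine ⟨t' * s, hM.prime ht' hs, a' * b, hM.mul_left _ _ hb, ?_⟩
  rw [map_mul, mul_assoc, ← mul_assoc (ι s), hd, ← mul_assoc, ← map_mul, ha', map_mul, mul_assoc,
    he, map_mul]

theorem mm_mul' (hL : LD A) (hM : IsRes A M) {d e : D}
    (hd : d ∈ mm ι M) (he : e ∈ V ι M) : d * e ∈ mm ι M := by
  obtain ⟨s, hs, a, ha, hd⟩ := hd
  obtain ⟨t, ht, b, he⟩ := he
  obtain ⟨t', a', ht', ha'⟩ := ore_left hL hM a t ht
  have hc : a' ∈ M := by
    by_contra h
    apply hM.prime h ht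
    rw [← ha']
    exact hM.mul_left _ _ ha
  refine ⟨t' * s, hM.prime ht' hs, a' * b, hM.mul_right _ _ hc, ?_⟩
  rw [map_mul, mul_assoc, ← mul_assoc (ι s), hd, ← mul_assoc, ← map_mul, ha', map_mul, mul_assoc,
    he, map_mul]

theorem V_add (hL : LD A) (hM : IsRes A M) {d e : D}
    (hd : d ∈ V ι M) (he : e ∈ V ι M) : d + e ∈ V ι M := by
  obtain ⟨s, hs, a, hd⟩ := hd
  obtain ⟨t, ht, b, he⟩ := he
  obtain ⟨t', s', ht', hs'⟩ := ore_left hL hM s t ht
  refine ⟨t' * s, hM.prime ht' hs, t' * a + s' * b, ?_⟩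
  rw [mul_add, map_mul, mul_assoc, hd, ← map_mul, ← map_mul, hs', map_mul _ s', mul_assoc, he,
    ← map_mul, ← map_add]

theorem mm_add (hL : LD A) (hM : IsRes A M) {d e : D}
    (hd : d ∈ mm ι M) (he : e ∈ mm ι M) : d + e ∈ mm ι M := by
  obtain ⟨s, hs, a, ha, hd⟩ := hd
  obtain ⟨t, ht, b, hb, he⟩ := he
  obtain ⟨t', s', ht', hs'⟩ := ore_left hL hM s t ht
  refine ⟨t' * s, hM.prime ht' hs, t' * a + s' * b,
    hM.add _ (hM.mul_left _ _ ha) _ (hM.mul_left _ _ hb), ?_⟩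
  rw [mul_add, map_mul, mul_assoc, hd, ← map_mul, ← map_mul, hs', map_mul _ s', mul_assoc, he,
    ← map_mul, ← map_add]

theorem V_neg {d : D} (hd : d ∈ V ι M) : -d ∈ V ι M := by
  obtain ⟨s, hs, a, hd⟩ := hd
  exact ⟨s, hs, -a, by rw [mul_neg, hd, map_neg]⟩

theorem V_sub (hL : LD A) (hM : IsRes A M) {d e : D}
    (hd : d ∈ V ι M) (he : e ∈ V ι M) : d - e ∈ V ι M := by
  rw [sub_eq_add_neg]; exact V_add hL hM hd (V_neg he)

theorem V_sum (hL : LD A) (hM : IsRes A M) {κ : Type*} (S : Finset κ) (f : κ → D)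
    (hf : ∀ i ∈ S, f i ∈ V ι M) : ∑ i ∈ S, f i ∈ V ι M := by
  classical
  induction S using Finset.induction_on with
  | empty => simpa using zero_mem_V hM
  | insert a S ha ih =>
    rw [Finset.sum_insert ha]
    exact V_add hL hM (hf _ (Finset.mem_insert_self _ _))
      (ih (fun i hi => hf i (Finset.mem_insert_of_mem hi)))

theorem mm_sum (hL : LD A) (hM : IsRes A M) {κ : Type*} (S : Finset κ) (f : κ → D)
    (hf : ∀ i ∈ S, f i ∈ mm ι M) : ∑ i ∈ S, f i ∈ mm ι M := by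
  classical
  induction S using Finset.induction_on with
  | empty => simpa using zero_mem_mm hM
  | insert a S ha ih =>
    rw [Finset.sum_insert ha]
    exact mm_add hL hM (hf _ (Finset.mem_insert_self _ _))
      (ih (fun i hi => hf i (Finset.mem_insert_of_mem hi)))

theorem inv_mem_V_of_sub_one (hι : Function.Injective ι) (hM : IsRes A M) {d : D}
    (h : d - 1 ∈ mm ι M) : d ≠ 0 ∧ d⁻¹ ∈ V ι M := by
  obtain ⟨s, hs, a, ha, h⟩ := h
  have h1 : ι s * d = ι (s + a) := by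
    rw [map_add, ← h]; noncomm_ring
  have h2 : s + a ∉ M := by
    intro h2
    apply hs
    have := hM.sub h2 ha
    simpa using this
  have h0 : d ≠ 0 := by
    rintro rfl
    apply ne_of_notMem hι hM h2
    rw [← h1, mul_zero]
  refine ⟨h0, s + a, h2, s, ?_⟩
  rw [← h1, mul_assoc, mul_inv_cancel₀ h0, mul_one]

theorem inv_mem_V_of_notMem_mm (hι : Function.Injective ι) (hM : IsRes A M) {d : D}
    (h : d ∈ V ι M) (h' : d ∉ mm ι M) : d ≠ 0 ∧ d⁻¹ ∈ V ι M := by
  obtain ⟨s, hs, a, h⟩ := h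
  have ha : a ∉ M := fun ha => h' ⟨s, hs, a, ha, h⟩
  have h0 : d ≠ 0 := by
    rintro rfl
    apply ne_of_notMem hι hM ha
    rw [← h, mul_zero]
  refine ⟨h0, a, ha, s, ?_⟩
  rw [← h, mul_assoc, mul_inv_cancel₀ h0, mul_one]

/-- the localizations are total valuation rings of `D` -/
theorem V_total (hι : Function.Injective ι) (hR : RD A) (hL : LD A)
    (hfrac : ∀ d : D, ∃ a b : A, a ≠ 0 ∧ ι a * d = ι b) (hM : IsRes A M) (w : D) :
    w ∈ V ι M ∨ w⁻¹ ∈ V ι M := by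
  by_cases hw : w = 0
  · left; rw [hw]; exact zero_mem_V hM
  obtain ⟨a, b, ha, hab⟩ := hfrac w
  have ha' : ι a ≠ 0 := fun h => ha (hι (by rw [h, map_zero]))
  obtain ⟨x, y, z, h1, h2⟩ := hR a b
  by_cases hx : x ∈ M
  · left
    have h1x : 1 - x ∉ M := by
      intro hh
      apply hM.one
      have := hM.add _ hh _ hx
      simpa using this
    refine V_of_right hι hL hM h1x (a := z) ?_
    apply mul_left_cancel₀ ha'
    rw [← mul_assoc, hab, ← map_mul, h2, map_mul]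
  · right
    refine V_of_right hι hL hM hx (a := y) ?_
    have h3 : ι x = w * ι y := by
      apply mul_left_cancel₀ ha'
      rw [← map_mul, h1, map_mul, ← hab, mul_assoc]
    rw [h3, inv_mul_cancel_left₀ hw]

theorem VV_mul_left (hL : LD A) (hM : IsRes A M) {d e : D}
    (hd : d ∈ V ι M) (he : e ∈ VV ι M N) : d * e ∈ VV ι M N := by
  obtain ⟨s, hs, a, hd⟩ := hd
  obtain ⟨s', hs', t, ht, b, he⟩ := he
  obtain ⟨u, a', hu, ha'⟩ := ore_left hL hM a s' hs'
  refine ⟨u * s, hM.prime hu hs, t, ht, a' * b, ?_⟩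
  have : ι (u * s) * (d * e) * ι t = ι u * (ι s * d) * e * ι t := by
    rw [map_mul]; simp only [mul_assoc]
  rw [this, hd, ← map_mul, ha', map_mul, mul_assoc (ι a'), mul_assoc (ι a'), he, map_mul]

theorem VV_mul_right (hι : Function.Injective ι) (hR : RD A) (hN : IsRes A N) {d e : D}
    (hd : d ∈ VV ι M N) (he : e ∈ V ι N) : d * e ∈ VV ι M N := by
  obtain ⟨s, hs, t, ht, a, hd⟩ := hd
  obtain ⟨t', ht', b, he⟩ := V_right hι hR hN he
  obtain ⟨u, b', hu, hb'⟩ := ore_right hR hN b t ht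
  refine ⟨s, hs, t' * u, hN.prime ht' hu, a * b', ?_⟩
  have : ι s * (d * e) * ι (t' * u) = ι s * d * (e * ι t') * ι u := by
    rw [map_mul]; simp only [mul_assoc]
  rw [this, he, mul_assoc _ (ι b), ← map_mul, hb', map_mul, ← mul_assoc, hd, map_mul]

theorem V_sub_VV_left (hN : IsRes A N) {d : D} (hd : d ∈ V ι M) : d ∈ VV ι M N := by
  obtain ⟨s, hs, a, hd⟩ := hd
  exact ⟨s, hs, 1, hN.one, a, by rw [hd, map_one, mul_one]⟩

theorem V_sub_VV_right (hι : Function.Injective ι) (hR : RD A) (hM : IsRes A M) (hN : IsRes A N)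
    {d : D} (hd : d ∈ V ι N) : d ∈ VV ι M N := by
  obtain ⟨t, ht, a, hd⟩ := V_right hι hR hN hd
  exact ⟨1, hM.one, t, ht, a, by rw [map_one, one_mul, hd]⟩

/-- comparability of `V_M V_N` and `V_M' V_N` -/
theorem VV_comp (hι : Function.Injective ι) (hR : RD A) (hL : LD A)
    (hfrac : ∀ d : D, ∃ a b : A, a ≠ 0 ∧ ι a * d = ι b) {M' : Set A} (hM' : IsRes A M')
    (hN : IsRes A N) {d e : D} (h1 : d ∈ VV ι M N) (h2 : d ∉ VV ι M' N) (h3 : e ∈ VV ι M' N) :
    e ∈ VV ι M N := by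
  have hd : d ≠ 0 := by
    rintro rfl
    apply h2
    exact V_sub_VV_left hN (zero_mem_V hM')
  by_cases he : e = 0
  · have := VV_mul_right hι hR hN h1 (zero_mem_V hN)
    rwa [mul_zero, ← he] at this
  rcases V_total hι hR hL hfrac hN (d⁻¹ * e) with h | h
  · have := VV_mul_right hι hR hN h1 h
    rwa [mul_inv_cancel_left₀ hd] at this
  · exfalso
    apply h2
    have := VV_mul_right hι hR hN h3 h
    rwa [mul_inv_rev, inv_inv, mul_inv_cancel_left₀ he] at this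

/-- `M` is tame': `V_M V_N ⊆ V_N V_M` for all maximal ideals `N` -/
def Tame' (M : Set A) : Prop :=
  ∀ N, IsRes A N → ∀ s, s ∉ M → ∀ t, t ∉ N → ∃ t', t' ∉ N ∧ ∃ s', s' ∉ M ∧ ∃ c,
    s' * t' = c * (t * s)

theorem tame_mul (hι : Function.Injective ι) (hR : RD A) (hL : LD A) (hM : IsRes A M)
    (hN : IsRes A N) (hT : Tame' M) {d e : D} (hd : d ∈ V ι M) (he : e ∈ V ι N) :
    d * e ∈ VV ι N M := by
  obtain ⟨t, ht, b, hb⟩ := V_right hι hR hN he
  have hdb : d * ι b ∈ V ι M := V_mul hL hM hd (map_mem_V hM b)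
  obtain ⟨s, hs, a, ha⟩ := V_right hι hR hM hdb
  -- `d e = (d b) t⁻¹ = a s⁻¹ t⁻¹`
  obtain ⟨t', ht', s', hs', c, hc⟩ := hT N hN s hs t ht
  have ht0 := ne_of_notMem hι hN ht
  have hs0 := ne_of_notMem hι hM hs
  have ht0' := ne_of_notMem hι hN ht'
  have hs0' := ne_of_notMem hι hM hs'
  have h1 : d * e = ι a * (ι s)⁻¹ * (ι t)⁻¹ := by
    rw [← ha, mul_inv_cancel_right₀ hs0, mul_assoc, ← hb, mul_inv_cancel_right₀ ht0]
  have hc' : ι s' * ι t' = ι c * (ι t * ι s) := by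
    rw [← map_mul, hc, map_mul, map_mul]
  have h2 : (ι s)⁻¹ * (ι t)⁻¹ = (ι t')⁻¹ * ((ι s')⁻¹ * ι c) := by
    have hc0 : ι c ≠ 0 := by
      intro h0
      rw [h0, zero_mul] at hc'
      exact (mul_ne_zero hs0' ht0') hc'
    calc (ι s)⁻¹ * (ι t)⁻¹ = (ι t * ι s)⁻¹ * ((ι c)⁻¹ * ι c) := by
          rw [inv_mul_cancel₀ hc0, mul_one, mul_inv_rev]
      _ = (ι c * (ι t * ι s))⁻¹ * ι c := by
          rw [mul_inv_rev (ι c) (ι t * ι s), mul_assoc]
      _ = (ι t')⁻¹ * ((ι s')⁻¹ * ι c) := by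
          rw [← hc', mul_inv_rev (ι s') (ι t'), mul_assoc]
  rw [h1, mul_assoc, h2]
  refine VV_mul_left hL hN (map_mem_V hN a) ?_
  refine VV_mul_left hL hN ⟨t', ht', 1, by rw [mul_inv_cancel₀ ht0', map_one]⟩ ?_
  refine V_sub_VV_right hι hR hN hM ?_
  exact V_mul hL hM ⟨s', hs', 1, by rw [mul_inv_cancel₀ hs0', map_one]⟩ (map_mem_V hM c)

/-- common left denominators -/
theorem common_den (hι : Function.Injective ι) (hR : RD A) (hL : LD A) (hM : IsRes A M) {n : ℕ}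
    (d : Fin n → D) (hd : ∀ i, d i ∈ V ι M) : ∃ s, s ∉ M ∧ ∀ i, ∃ a, ι s * d i = ι a := by
  choose s hs a ha using fun i => V_right hι hR hM (hd i)
  obtain ⟨t, b, ht, hb⟩ := ore_left_fin hL hM a s hs
  refine ⟨t, ht, fun i => ⟨b i, ?_⟩⟩
  apply mul_right_cancel₀ (ne_of_notMem hι hM (hs i))
  rw [mul_assoc, ha, ← map_mul, hb, map_mul]

/-- a local generator of the right module generated by the `q i` -/
theorem local_gen (hι : Function.Injective ι) (hR : RD A) (hL : LD A)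
    (hfrac : ∀ d : D, ∃ a b : A, a ≠ 0 ∧ ι a * d = ι b) (hM : IsRes A M) {n : ℕ} (q : Fin n → D)
    (i₀ : Fin n) : ∃ j, ∀ i, ∃ v ∈ V ι M, q i = q j * v := by
  classical
  have key : ∀ S : Finset (Fin n), S.Nonempty → ∃ j ∈ S, ∀ i ∈ S, ∃ v ∈ V ι M, q i = q j * v := by
    intro S hS
    induction hS using Finset.Nonempty.cons_induction with
    | singleton i =>
      refine ⟨i, by simp, ?_⟩
      intro i' hi'
      rw [Finset.mem_singleton] at hi'
      subst hi'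
      exact ⟨1, one_mem_V hM, by rw [mul_one]⟩
    | cons i S hi hS ih =>
      obtain ⟨j, hj, hjS⟩ := ih
      have hcase : (∃ v ∈ V ι M, q i = q j * v) ∨ (∃ v ∈ V ι M, q j = q i * v) := by
        by_cases hi0 : q i = 0
        · left; exact ⟨0, zero_mem_V hM, by rw [hi0, mul_zero]⟩
        by_cases hj0 : q j = 0
        · right; exact ⟨0, zero_mem_V hM, by rw [hj0, mul_zero]⟩
        rcases V_total hι hR hL hfrac hM ((q j)⁻¹ * q i) with h | h
        · left; exact ⟨_, h, by rw [mul_inv_cancel_left₀ hj0]⟩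
        · right
          rw [mul_inv_rev, inv_inv] at h
          exact ⟨_, h, by rw [mul_inv_cancel_left₀ hi0]⟩
      rcases hcase with hcase | ⟨v, hv, hvj⟩
      · refine ⟨j, by simp [hj], ?_⟩
        intro i' hi'
        rw [Finset.mem_cons] at hi'
        rcases hi' with rfl | hi'
        · exact hcase
        · exact hjS i' hi'
      · refine ⟨i, by simp, ?_⟩
        intro i' hi'
        rw [Finset.mem_cons] at hi'
        rcases hi' with rfl | hi'
        · exact ⟨1, one_mem_V hM, by rw [mul_one]⟩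
        · obtain ⟨v', hv', hvj'⟩ := hjS i' hi'
          exact ⟨v * v', V_mul hL hM hv hv', by rw [hvj', hvj, mul_assoc]⟩
  obtain ⟨j, -, hj⟩ := key Finset.univ ⟨i₀, Finset.mem_univ _⟩
  exact ⟨j, fun i => hj i (Finset.mem_univ _)⟩

/-- closed sets of maximal ideals -/
def Cl (W : Set (Set A)) : Prop := ∀ N, IsRes A N → N ∉ W → ∃ s, s ∉ N ∧ ∀ M ∈ W, s ∈ M

theorem Cl_empty : Cl (∅ : Set (Set A)) := fun _ hN _ => ⟨1, hN.one, by simp⟩

theorem Cl_union {W W' : Set (Set A)} (hW : ∀ M ∈ W, IsRes A M) (hW' : ∀ M ∈ W', IsRes A M)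
    (h : Cl W) (h' : Cl W') : Cl (W ∪ W') := by
  intro N hN hNW
  obtain ⟨s, hs, hsW⟩ := h N hN (fun h => hNW (Or.inl h))
  obtain ⟨s', hs', hsW'⟩ := h' N hN (fun h => hNW (Or.inr h))
  refine ⟨s * s', hN.prime hs hs', ?_⟩
  rintro M (hM | hM)
  · exact (hW M hM).mul_right _ _ (hsW M hM)
  · exact (hW' M hM).mul_left _ _ (hsW' M hM)

theorem Cl_inter {W : Set (Set A)} (h : Cl W) (C : Set A) : Cl {M | M ∈ W ∧ C ⊆ M} := by
  intro N hN hNW
  by_cases hN' : N ∈ W
  · have hC : ¬ C ⊆ N := fun hC => hNW ⟨hN', hC⟩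
    obtain ⟨c, hc, hcN⟩ := Set.not_subset.1 hC
    exact ⟨c, hcN, fun M hM => hM.2 hc⟩
  · obtain ⟨s, hs, hsW⟩ := h N hN hN'
    exact ⟨s, hs, fun M hM => hsW M hM.1⟩

theorem Cl_biUnion {W : Set (Set A)} (hW : ∀ M ∈ W, IsRes A M) (h : Cl W)
    (F : Finset (Set A)) : Cl {M | M ∈ W ∧ ∃ C ∈ F, C ⊆ M} := by
  classical
  induction F using Finset.induction_on with
  | empty =>
    have : {M : Set A | M ∈ W ∧ ∃ C ∈ (∅ : Finset (Set A)), C ⊆ M} = ∅ := by
      ext M; simp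
    rw [this]; exact Cl_empty
  | insert C F hC ih =>
    have : {M : Set A | M ∈ W ∧ ∃ C' ∈ insert C F, C' ⊆ M} =
        {M | M ∈ W ∧ C ⊆ M} ∪ {M | M ∈ W ∧ ∃ C ∈ F, C ⊆ M} := by
      ext M
      simp only [Set.mem_ofPred_eq, Set.mem_union, Finset.mem_insert]
      constructor
      · rintro ⟨h1, C', h2 | h2, h3⟩
        · left; exact ⟨h1, by rw [← h2]; exact h3⟩
        · right; exact ⟨h1, C', h2, h3⟩
      · rintro (⟨h1, h2⟩ | ⟨h1, C', h2, h3⟩)
        · exact ⟨h1, C, Or.inl rfl, h2⟩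
        · exact ⟨h1, C', Or.inr h2, h3⟩
    rw [this]
    exact Cl_union (fun M hM => hW M hM.1) (fun M hM => hW M hM.1) (Cl_inter h C) ih

/-- the local-global step over a closed set -/
theorem closed_step (hι : Function.Injective ι) (hR : RD A) (hL : LD A) {W : Set (Set A)}
    (hW : ∀ M ∈ W, IsRes A M) (hcl : Cl W) (hM : IsRes A M) {d : D}
    (h : ∀ N ∈ W, d ∈ VV ι M N) : ∃ s, s ∉ M ∧ ∀ N ∈ W, ι s * d ∈ V ι N := by
  let B : Submodule Aᵐᵒᵖ A :=
    { carrier := {t | d * ι t ∈ V ι M}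
      zero_mem' := by
        show d * ι 0 ∈ V ι M
        rw [map_zero, mul_zero]; exact zero_mem_V hM
      add_mem' := by
        intro x y hx hy
        show d * ι (x + y) ∈ V ι M
        rw [map_add, mul_add]
        exact V_add hL hM hx hy
      smul_mem' := by
        intro c x hx
        show d * ι (x * c.unop) ∈ V ι M
        rw [map_mul, ← mul_assoc]
        exact V_mul hL hM hx (map_mem_V hM _) }
  let R : Submodule Aᵐᵒᵖ A :=
    { carrier := {t | ∀ N ∈ W, t ∈ N}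
      zero_mem' := fun N hN => (hW N hN).zero
      add_mem' := fun {x y} hx hy N hN => (hW N hN).add _ (hx N hN) _ (hy N hN)
      smul_mem' := fun c x hx N hN => (hW N hN).mul_right _ _ (hx N hN) }
  have h1 : (1 : A) ∈ B ⊔ R := by
    by_contra h1
    obtain ⟨N, hN, hsub⟩ := exists_res_of_right hR _ h1
    by_cases hNW : N ∈ W
    · obtain ⟨s, hs, t, ht, a, ha⟩ := h N hNW
      apply ht
      apply hsub
      apply (le_sup_left : B ≤ B ⊔ R)
      exact ⟨s, hs, a, by rw [← mul_assoc, ha]⟩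
    · obtain ⟨s, hs, hsW⟩ := hcl N hN hNW
      exact hs (hsub ((le_sup_right : R ≤ B ⊔ R) hsW))
  obtain ⟨t, ht, r, hr, htr⟩ := Submodule.mem_sup.1 h1
  obtain ⟨s, hs, a, ha⟩ := ht
  refine ⟨s, hs, fun N hN => ?_⟩
  have htN : t ∉ N := by
    intro htN
    apply (hW N hN).one
    rw [← htr]
    exact (hW N hN).add _ htN _ (hr N hN)
  exact V_of_right hι hL (hW N hN) htN (by rw [mul_assoc, ha])

end basics

end Pool.Agent.H34.Dist
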