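import Mathlib
import Pool.Agent.H34.Dist.Val

/-!
# The main step

`K` is a finitely generated projective right `A`-submodule of `D` (generators `q i`, dual basis
`y i`).  Under a covering hypothesis on the wild maximal ideals the module `A + K` is projective.
-/

universe u

namespace Pool.Agent.H34.Dist

open Pool.Agent.H8.Dist

/-- For every nonzero `a` the wild maximal ideals through `a` are covered by finitely many closed
sets `C` of maximal ideals such that `A ∩ a V_M` lies in `M'` for all `M`, `M'` in `C` through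
`a`. -/
def Cov (A : Type u) [Ring A] : Prop :=
  ∀ a : A, a ≠ 0 → ∃ F : Finset (Set A),
    (∀ M, IsRes A M → a ∈ M → ¬ Tame' M → ∃ C ∈ F, C ⊆ M) ∧
    ∀ C ∈ F, ∀ M M', IsRes A M → IsRes A M' → a ∈ M → a ∈ M' → C ⊆ M → C ⊆ M' →
      ∀ x s b, s ∉ M → x * s = a * b → x ∈ M'

section main
variable {A : Type u} [Ring A] {D : Type u} [DivisionRing D] {ι : A →+* D}

theorem inv_map_mem_V (hι : Function.Injective ι) {M : Set A} (hM : IsRes A M) {s : A}
    (hs : s ∉ M) : (ι s)⁻¹ ∈ V ι M :=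
  ⟨s, hs, 1, by rw [mul_inv_cancel₀ (ne_of_notMem hι hM hs), map_one]⟩

theorem V_cancel_right (hι : Function.Injective ι) (hL : LD A) {M : Set A} (hM : IsRes A M) {s : A}
    (hs : s ∉ M) {d : D} (h : d * ι s ∈ V ι M) : d ∈ V ι M := by
  have := V_mul hL hM h (inv_map_mem_V hι hM hs)
  rwa [mul_inv_cancel_right₀ (ne_of_notMem hι hM hs)] at this

theorem PK (hι : Function.Injective ι) (hR : RD A) (hL : LD A)
    (hfrac : ∀ d : D, ∃ a b : A, a ≠ 0 ∧ ι a * d = ι b) (hcov : Cov A)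
    (K : AddSubgroup D) (hK : ∀ j ∈ K, ∀ c, j * ι c ∈ K) {n : ℕ} (q y : Fin n → D)
    (hq : ∀ i, q i ∈ K) (hqL : ∀ x : A, (∀ i, ∃ m, ι x * q i = ι m) → x ∈ LJ ι K)
    (hy : ∀ i, ∀ k ∈ K, ∃ m, y i * k = ι m) (hqy : ∑ i, q i * y i = 1) :
    ∃ ψ ∈ LJ ι K, ι (1 - ψ) ∈ K := by
  classical
  have hLmem : ∀ x ∈ LJ ι K, ∀ k ∈ K, ∃ m, ι x * k = ι m := fun x hx => hx
  obtain ⟨P, hPdef⟩ : ∃ P : Set A → Prop, P = fun M => ((LJ ι K : Ideal A) : Set A) ⊆ M :=
    ⟨_, rfl⟩
  have hPmem : ∀ M, P M → ∀ x ∈ LJ ι K, x ∈ M := by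
    intro M hM x hx
    rw [hPdef] at hM
    exact hM hx
  have hPnot : ∀ M, ¬ P M → ∃ x ∈ LJ ι K, x ∉ M := by
    intro M hM
    rw [hPdef] at hM
    exact Set.not_subset.1 hM
  -- the zeros
  have s1 : ∀ M, IsRes A M → InZ ι K M → ∀ i, q i ∈ mm ι M := by
    intro M hM hZ i
    by_contra hni
    have hinv : q i ≠ 0 ∧ (q i)⁻¹ ∈ V ι M := by
      rcases V_total hι hR hL hfrac hM (q i) with h | h
      · exact inv_mem_V_of_notMem_mm hι hM h hni
      · refine ⟨?_, h⟩
        intro h0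
        apply hni
        rw [h0]; exact zero_mem_mm hM
    obtain ⟨s, hs, a, ha⟩ := V_right hι hR hM hinv.2
    apply hs
    apply hZ
    have : ι s = q i * ι a := by rw [← ha, mul_inv_cancel_left₀ hinv.1]
    rw [this]; exact hK _ (hq i) _
  have H1 : ∀ M, IsRes A M → InZ ι K M → ∃ τ ∉ M, τ ∈ LJ ι K := by
    intro M hM hZ
    obtain ⟨s, hs, h⟩ := common_den hι hR hL hM q (fun i => mm_sub_V (s1 M hM hZ i))
    exact ⟨s, hs, hqL s h⟩
  obtain ⟨l, hl, hl1⟩ := exists_S ι hL K H1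
  have yV : ∀ M, IsRes A M → ¬ InZ ι K M → ∀ i, y i ∈ V ι M := by
    intro M hM hZ i
    obtain ⟨t, htK, htM⟩ := not_InZ ι hZ
    obtain ⟨m, hm⟩ := hy i _ htK
    exact V_of_right hι hL hM htM hm
  have lZ : ∀ M, IsRes A M → l ∈ M → ¬ InZ ι K M := by
    intro M hM hlM hZ
    apply hM.one
    have := hM.sub hlM (hl1 M hM hZ)
    simpa using this
  -- the element `e`
  obtain ⟨e, he1, he2⟩ : ∃ e : A, (∀ i, ∃ m, ι e * y i = ι m) ∧
      ∀ M, IsRes A M → l ∈ M → e - 1 ∈ M := by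
    let E : Ideal A :=
      { carrier := {x | ∀ i, ∃ m, ι x * y i = ι m}
        zero_mem' := fun i => ⟨0, by simp⟩
        add_mem' := by
          intro a b ha hb i
          obtain ⟨m, hm⟩ := ha i
          obtain ⟨m', hm'⟩ := hb i
          exact ⟨m + m', by rw [map_add, add_mul, hm, hm', map_add]⟩
        smul_mem' := by
          intro c a ha i
          obtain ⟨m, hm⟩ := ha i
          exact ⟨c * m, by rw [smul_eq_mul, map_mul, mul_assoc, hm, map_mul]⟩ }
    let R : Ideal A :=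
      { carrier := {x | ∀ M, IsRes A M → l ∈ M → x ∈ M}
        zero_mem' := fun M hM _ => hM.zero
        add_mem' := fun {x y} hx hy M hM hZ => hM.add _ (hx M hM hZ) _ (hy M hM hZ)
        smul_mem' := fun c x hx M hM hZ => hM.mul_left _ _ (hx M hM hZ) }
    have h1 : (1 : A) ∈ E ⊔ R := by
      by_contra h1
      obtain ⟨N, hN, hsub⟩ := exists_res_of_left hL _ h1
      have hlN : l ∈ N := hsub ((le_sup_right : R ≤ E ⊔ R) (fun M _ hlM => hlM))
      obtain ⟨s, hs, h⟩ := common_den hι hR hL hN y (yV N hN (lZ N hN hlN))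
      exact hs (hsub ((le_sup_left : E ≤ E ⊔ R) h))
    obtain ⟨e, he, r, hr, her⟩ := Submodule.mem_sup.1 h1
    refine ⟨e, he, fun M hM hlM => ?_⟩
    have : e - 1 = -r := by rw [← her]; abel
    rw [this]
    exact hM.neg (hr M hM hlM)
  choose β hβ using he1
  have βL : ∀ i, β i ∈ LJ ι K := by
    intro i k hk
    obtain ⟨m, hm⟩ := hy i k hk
    exact ⟨e * m, by rw [← hβ, mul_assoc, hm, map_mul]⟩
  obtain ⟨θ, hθ⟩ : ∃ θ, θ = ι l + ∑ i, q i * ι (β i) := ⟨_, rfl⟩
  have T1 : ∀ c ∈ LJ ι K, ∃ c', ι c * θ = ι c' := by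
    intro c hc
    choose m hm using fun i => hLmem c hc _ (hq i)
    refine ⟨c * l + ∑ i, m i * β i, ?_⟩
    rw [hθ, mul_add, map_add, map_mul, map_sum, Finset.mul_sum]
    congr 1
    refine Finset.sum_congr rfl fun i _ => ?_
    rw [← mul_assoc, hm, map_mul]
  have KV : ∀ M, ¬ P M → ∀ k ∈ K, k ∈ V ι M := by
    intro M hM k hk
    obtain ⟨x, hx, hxM⟩ := hPnot M hM
    obtain ⟨m, hm⟩ := hLmem x hx k hk
    exact ⟨x, hxM, m, hm⟩
  have ZP : ∀ M, IsRes A M → InZ ι K M → ¬ P M := by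
    intro M hM hZ hP
    obtain ⟨τ, hτ, hτL⟩ := H1 M hM hZ
    exact hτ (hPmem M hP τ hτL)
  -- local generators on `P`
  have hn : Nonempty (Fin n) := by
    by_contra hn
    rw [not_nonempty_iff] at hn
    rw [Finset.univ_eq_empty, Finset.sum_empty] at hqy
    exact zero_ne_one hqy
  obtain ⟨i₀⟩ := hn
  have gen : ∀ M, IsRes A M → P M → ∃ κ ∈ K, κ ≠ 0 ∧ κ⁻¹ ∈ mm ι M ∧
      ∀ i, κ⁻¹ * q i ∈ V ι M := by
    intro M hM hP
    obtain ⟨j, hj⟩ := local_gen hι hR hL hfrac hM q i₀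
    have hjV : q j ∉ V ι M := by
      intro hjV
      obtain ⟨s, hs, h⟩ := common_den hι hR hL hM q (fun i => by
        obtain ⟨v, hv, hvi⟩ := hj i
        rw [hvi]; exact V_mul hL hM hjV hv)
      exact hs (hPmem M hP s (hqL s h))
    have hj0 : q j ≠ 0 := by
      intro h0
      apply hjV
      rw [h0]; exact zero_mem_V hM
    have hjinv : (q j)⁻¹ ∈ V ι M := by
      rcases V_total hι hR hL hfrac hM (q j) with h | h
      · exact absurd h hjV
      · exact h
    refine ⟨q j, hq j, hj0, ?_, ?_⟩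
    · by_contra hnm
      have := (inv_mem_V_of_notMem_mm hι hM hjinv hnm).2
      rw [inv_inv] at this
      exact hjV this
    · intro i
      obtain ⟨v, hv, hvi⟩ := hj i
      rw [hvi, inv_mul_cancel_left₀ hj0]
      exact hv
  have T3 : ∀ M, IsRes A M → P M → ∀ κ ∈ K, κ ≠ 0 → κ⁻¹ ∈ mm ι M →
      (∀ i, κ⁻¹ * q i ∈ V ι M) → θ ≠ 0 ∧ κ⁻¹ * θ⁻¹ * κ ∈ V ι M := by
    intro M hM hP κ hκK hκ0 hκm hκq
    have hlM : l ∈ M := hPmem M hP l hl
    have heM : e - 1 ∈ M := he2 M hM hlM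
    choose m hm using fun i => hy i κ hκK
    obtain ⟨ml, hml⟩ := hLmem l hl κ hκK
    have h1 : κ⁻¹ * θ * κ - 1 = κ⁻¹ * ι ml + ∑ i, (κ⁻¹ * q i) * ι ((e - 1) * m i) := by
      have h2 : (1 : D) = ∑ i, (κ⁻¹ * q i) * ι (m i) := by
        have : ∀ i, (κ⁻¹ * q i) * ι (m i) = κ⁻¹ * (q i * y i) * κ := by
          intro i
          rw [← hm]; simp only [mul_assoc]
        simp only [this]
        rw [← Finset.sum_mul, ← Finset.mul_sum, hqy, mul_one, inv_mul_cancel₀ hκ0]
      have h3 : κ⁻¹ * θ * κ = κ⁻¹ * ι ml + ∑ i, (κ⁻¹ * q i) * ι (e * m i) := by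
        rw [hθ, mul_add, add_mul, mul_assoc, hml, Finset.mul_sum, Finset.sum_mul]
        congr 1
        refine Finset.sum_congr rfl fun i _ => ?_
        rw [← hβ, map_mul, ← hm]
        simp only [mul_assoc]
      rw [h3, add_sub_assoc]
      congr 1
      conv_lhs => rw [h2]
      rw [← Finset.sum_sub_distrib]
      refine Finset.sum_congr rfl fun i _ => ?_
      rw [← mul_sub, ← map_sub]
      congr 2
      noncomm_ring
    have h4 : κ⁻¹ * θ * κ - 1 ∈ mm ι M := by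
      rw [h1]
      refine mm_add hL hM (mm_mul' hL hM hκm (map_mem_V hM _)) ?_
      refine mm_sum hL hM _ _ fun i _ => ?_
      exact mm_mul hL hM (hκq i) (map_mem_mm hM (hM.mul_right _ _ heM))
    obtain ⟨h5, h6⟩ := inv_mem_V_of_sub_one hι hM h4
    refine ⟨?_, ?_⟩
    · rintro rfl
      apply h5
      rw [mul_zero, zero_mul]
    · rwa [mul_inv_rev, mul_inv_rev, inv_inv, ← mul_assoc] at h6
  have T2 : ∀ M, IsRes A M → InZ ι K M → θ⁻¹ ∈ V ι M := by
    intro M hM hZ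
    refine (inv_mem_V_of_sub_one hι hM ?_).2
    have : θ - 1 = ι (l - 1) + ∑ i, q i * ι (β i) := by
      rw [hθ, map_sub, map_one]; abel
    rw [this]
    refine mm_add hL hM (map_mem_mm hM (hl1 M hM hZ)) ?_
    refine mm_sum hL hM _ _ fun i _ => ?_
    exact mm_mul' hL hM (s1 M hM hZ i) (map_mem_V hM _)
  have T4 : ∀ M, IsRes A M → ¬ P M → θ ∈ V ι M := by
    intro M hM hP
    rw [hθ]
    refine V_add hL hM (map_mem_V hM _) (V_sum hL hM _ _ fun i _ => ?_)
    exact V_mul hL hM (KV M hP _ (hq i)) (map_mem_V hM _)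
  -- the trivial case
  by_cases hPne : ∃ M, IsRes A M ∧ P M
  swap
  · refine ⟨1, ?_, by rw [sub_self, map_zero]; exact K.zero_mem⟩
    by_contra h1
    obtain ⟨M, hM, hsub⟩ := exists_res_of_left hL _ h1
    apply hPne
    exact ⟨M, hM, by rw [hPdef]; exact hsub⟩
  obtain ⟨M₀, hM₀, hPM₀⟩ := hPne
  have hθ0 : θ ≠ 0 := by
    obtain ⟨κ, h1, h2, h3, h4⟩ := gen M₀ hM₀ hPM₀
    exact (T3 M₀ hM₀ hPM₀ κ h1 h2 h3 h4).1
  -- the set `W`
  obtain ⟨W, hWdef⟩ : ∃ W : Set (Set A), W = {M | IsRes A M ∧ ¬ P M ∧ θ⁻¹ ∉ V ι M} := ⟨_, rfl⟩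
  have hWres : ∀ M ∈ W, IsRes A M := by
    intro M hM; rw [hWdef] at hM; exact hM.1
  have hWP : ∀ M ∈ W, ¬ P M := by
    intro M hM; rw [hWdef] at hM; exact hM.2.1
  have hWθ : ∀ M ∈ W, θ⁻¹ ∉ V ι M := by
    intro M hM; rw [hWdef] at hM; exact hM.2.2
  have hWZ : ∀ M ∈ W, ¬ InZ ι K M := fun M hM hZ => hWθ M hM (T2 M (hWres M hM) hZ)
  have hWcl : Cl W := by
    intro N hN hNW
    by_cases hPN : P N
    · obtain ⟨κ, h1, h2, h3, h4⟩ := gen N hN hPN
      have h5 := (T3 N hN hPN κ h1 h2 h3 h4).2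
      have h6 : κ⁻¹ * θ⁻¹ ∈ V ι N := by
        have := V_mul hL hN h5 (mm_sub_V h3)
        rwa [mul_inv_cancel_right₀ h2] at this
      obtain ⟨s, hs, b, hb⟩ := V_right hι hR hN h6
      refine ⟨s, hs, fun M hM => ?_⟩
      by_contra hsM
      apply hWθ M hM
      apply V_cancel_right hι hL (hWres M hM) hsM
      have : θ⁻¹ * ι s = κ * ι b := by
        rw [← hb, mul_assoc, mul_inv_cancel_left₀ h2]
      rw [this]
      exact KV M (hWP M hM) _ (hK _ h1 _)
    · have h5 : θ⁻¹ ∈ V ι N := by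
        by_contra h5
        apply hNW
        rw [hWdef]
        exact ⟨hN, hPN, h5⟩
      obtain ⟨s, hs, b, hb⟩ := V_right hι hR hN h5
      refine ⟨s, hs, fun M hM => ?_⟩
      by_contra hsM
      exact hWθ M hM (V_of_right hι hL (hWres M hM) hsM hb)
  obtain ⟨c, hcL, hc1⟩ : ∃ c ∈ LJ ι K, ∀ M ∈ W, c - 1 ∈ M := by
    let R : Ideal A :=
      { carrier := {x | ∀ M ∈ W, x ∈ M}
        zero_mem' := fun M hM => (hWres M hM).zero
        add_mem' := fun {x y} hx hy M hM => (hWres M hM).add _ (hx M hM) _ (hy M hM)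
        smul_mem' := fun c x hx M hM => (hWres M hM).mul_left _ _ (hx M hM) }
    have h1 : (1 : A) ∈ LJ ι K ⊔ R := by
      by_contra h1
      obtain ⟨N, hN, hsub⟩ := exists_res_of_left hL _ h1
      have hPN : P N := by
        rw [hPdef]
        intro x hx
        exact hsub ((le_sup_left : LJ ι K ≤ LJ ι K ⊔ R) hx)
      obtain ⟨s, hs, hsW⟩ := hWcl N hN (fun h => hWP N h hPN)
      exact hs (hsub ((le_sup_right : R ≤ LJ ι K ⊔ R) hsW))
    obtain ⟨c, hc, r, hr, hcr⟩ := Submodule.mem_sup.1 h1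
    refine ⟨c, hc, fun M hM => ?_⟩
    have : c - 1 = -r := by rw [← hcr]; abel
    rw [this]
    exact (hWres M hM).neg (hr M hM)
  have hcM : ∀ M ∈ W, c ∉ M := by
    intro M hM hcM
    apply (hWres M hM).one
    have := (hWres M hM).sub hcM (hc1 M hM)
    simpa using this
  obtain ⟨a1, ha1⟩ := T1 c hcL
  have ha1' : ι a1 * θ⁻¹ = ι c := by rw [← ha1, mul_inv_cancel_right₀ hθ0]
  have ha1M : ∀ M ∈ W, a1 ∈ M := by
    intro M hM
    by_contra h
    exact hWθ M hM ⟨a1, h, c, ha1'⟩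
  -- the covering
  obtain ⟨F, hF1, hF2⟩ : ∃ F : Finset (Set A), (∀ M ∈ W, ¬ Tame' M → ∃ C ∈ F, C ⊆ M) ∧
      ∀ C ∈ F, ∀ M ∈ W, ∀ M' ∈ W, C ⊆ M → C ⊆ M' → θ⁻¹ ∉ VV ι M M' := by
    by_cases ha0 : a1 = 0
    · have hWe : ∀ M ∈ W, False := by
        intro M hM
        apply hcM M hM
        have : c = 0 := by
          apply hι
          rw [← ha1', ha0, map_zero, zero_mul]
        rw [this]; exact (hWres M hM).zero
      exact ⟨∅, fun M hM => (hWe M hM).elim, by simp⟩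
    · obtain ⟨F, h1, h2⟩ := hcov a1 ha0
      refine ⟨F, fun M hM hT => h1 M (hWres M hM) (ha1M M hM) hT, ?_⟩
      rintro C hC M hM M' hM' hCM hCM' ⟨s, hs, t, ht, b, hb⟩
      have h3 : θ⁻¹ * ι t ∈ V ι M := ⟨s, hs, b, by rw [← mul_assoc, hb]⟩
      obtain ⟨s', hs', b', hb'⟩ := V_right hι hR (hWres M hM) h3
      have h4 : (c * t) * s' = a1 * b' := by
        apply hι
        rw [map_mul, map_mul, map_mul, ← hb', ← ha1']
        simp only [mul_assoc]
      exact (hWres M' hM').prime (hcM M' hM') ht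
        (h2 C hC M M' (hWres M hM) (hWres M' hM') (ha1M M hM) (ha1M M' hM') hCM hCM' _ _ _ hs' h4)
  -- conflicts
  obtain ⟨PC, hPC⟩ : ∃ PC : Set A → Prop, PC = fun N => ∃ x, IsRes A x ∧ P x ∧ θ⁻¹ ∉ VV ι x N :=
    ⟨_, rfl⟩
  have κθ : ∀ x, IsRes A x → P x → ∃ κ ∈ K, κ ≠ 0 ∧ κ⁻¹ ∈ V ι x ∧ κ⁻¹ * θ⁻¹ ∈ V ι x := by
    intro x hx hPx
    obtain ⟨κ, h1, h2, h3, h4⟩ := gen x hx hPx
    refine ⟨κ, h1, h2, mm_sub_V h3, ?_⟩
    have h5 := (T3 x hx hPx κ h1 h2 h3 h4).2
    have := V_mul hL hx h5 (mm_sub_V h3)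
    rwa [mul_inv_cancel_right₀ h2] at this
  have clique : ∀ M ∈ W, ∀ M' ∈ W, θ⁻¹ ∉ VV ι M' M → PC M → PC M' := by
    intro M hM M' hM' hMM' hPCM
    rw [hPC] at hPCM ⊢
    obtain ⟨x, hx, hPx, hxM⟩ := hPCM
    refine ⟨x, hx, hPx, fun hh => ?_⟩
    have hMr := hWres M hM
    have hMr' := hWres M' hM'
    by_cases hcase : ∀ v ∈ V ι M', v ∈ VV ι x M
    · apply hxM
      obtain ⟨s, hs, t, ht, a, ha⟩ := hh
      have h1 : θ⁻¹ = (ι s)⁻¹ * (ι a * (ι t)⁻¹) := by
        rw [← ha, mul_inv_cancel_right₀ (ne_of_notMem hι hMr' ht),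
          inv_mul_cancel_left₀ (ne_of_notMem hι hx hs)]
      rw [h1]
      refine VV_mul_left hL hx (inv_map_mem_V hι hx hs) ?_
      exact VV_mul_left hL hx (map_mem_V hx a) (hcase _ (inv_map_mem_V hι hMr' ht))
    · push Not at hcase
      obtain ⟨v, hv, hvx⟩ := hcase
      obtain ⟨κ, h1, h2, h3, h4⟩ := κθ x hx hPx
      apply hMM'
      have h5 : κ⁻¹ * θ⁻¹ ∈ VV ι M' M :=
        VV_comp hι hR hL hfrac hx hMr (V_sub_VV_left hMr hv) hvx (V_sub_VV_left hMr h4)
      have := VV_mul_left hL hMr' (KV M' (hWP M' hM') κ h1) h5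
      rwa [mul_inv_cancel_left₀ h2] at this
  obtain ⟨G, hG⟩ : ∃ G : Finset (Set A), G = F.filter (fun C => ∀ M ∈ W, C ⊆ M → ¬ PC M) :=
    ⟨_, rfl⟩
  obtain ⟨W1, hW1⟩ : ∃ W1 : Set (Set A), W1 = {M | M ∈ W ∧ ∃ C ∈ G, C ⊆ M} := ⟨_, rfl⟩
  have hW1W : ∀ M ∈ W1, M ∈ W := by
    intro M hM; rw [hW1] at hM; exact hM.1
  have hW1cl : Cl W1 := by
    rw [hW1]; exact Cl_biUnion hWres hWcl G
  have hW1res : ∀ M ∈ W1, IsRes A M := fun M hM => hWres M (hW1W M hM)
  have hW1PC : ∀ M ∈ W1, ¬ PC M := by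
    intro M hM
    rw [hW1] at hM
    obtain ⟨h1, C, hC, hCM⟩ := hM
    rw [hG, Finset.mem_filter] at hC
    exact hC.2 M h1 hCM
  have hW1c : ∀ M ∈ W, M ∉ W1 → Tame' M ∨ PC M := by
    intro M hM hM1
    by_cases hT : Tame' M
    · exact Or.inl hT
    right
    obtain ⟨C, hC, hCM⟩ := hF1 M hM hT
    have hCG : C ∉ G := by
      intro hCG
      apply hM1
      rw [hW1]
      exact ⟨hM, C, hCG, hCM⟩
    rw [hG, Finset.mem_filter] at hCG
    push Not at hCG
    obtain ⟨M', hM', hCM', hPCM'⟩ := hCG hC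
    exact clique M' hM' M hM (hF2 C hC M hM M' hM' hCM hCM') hPCM'
  -- Step 2
  obtain ⟨μ1, hμ1, hμ1W⟩ : ∃ μ1 ∈ LJ ι K, ∀ N ∈ W1, (1 - ι μ1) * θ⁻¹ ∈ V ι N := by
    let Q : Ideal A :=
      { carrier := {a | ∃ μ ∈ LJ ι K, ∀ N ∈ W1, (ι a - ι μ) * θ⁻¹ ∈ V ι N}
        zero_mem' := ⟨0, (LJ ι K).zero_mem, fun N hN => by
          rw [sub_self, zero_mul]; exact zero_mem_V (hW1res N hN)⟩
        add_mem' := by
          rintro a b ⟨μ, hμ, h⟩ ⟨μ', hμ', h'⟩
          refine ⟨μ + μ', (LJ ι K).add_mem hμ hμ', fun N hN => ?_⟩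
          have : (ι (a + b) - ι (μ + μ')) * θ⁻¹ = (ι a - ι μ) * θ⁻¹ + (ι b - ι μ') * θ⁻¹ := by
            rw [map_add, map_add]; noncomm_ring
          rw [this]
          exact V_add hL (hW1res N hN) (h N hN) (h' N hN)
        smul_mem' := by
          rintro c a ⟨μ, hμ, h⟩
          refine ⟨c * μ, (LJ ι K).mul_mem_left c hμ, fun N hN => ?_⟩
          have : (ι (c • a) - ι (c * μ)) * θ⁻¹ = ι c * ((ι a - ι μ) * θ⁻¹) := by
            rw [smul_eq_mul, map_mul, map_mul]; noncomm_ring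
          rw [this]
          exact V_mul hL (hW1res N hN) (map_mem_V (hW1res N hN) c) (h N hN) }
    have hQ : (1 : A) ∈ Q := by
      by_contra hQ
      obtain ⟨M, hM, hQM⟩ := exists_res_of_left hL Q hQ
      by_cases hPM : P M
      · obtain ⟨s, hs, h⟩ := closed_step hι hR hL hW1res hW1cl hM (d := θ⁻¹) (fun N hN => by
          by_contra hh
          apply hW1PC N hN
          rw [hPC]
          exact ⟨M, hM, hPM, hh⟩)
        apply hs
        apply hQM
        refine ⟨0, (LJ ι K).zero_mem, fun N hN => ?_⟩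
        rw [map_zero, sub_zero]
        exact h N hN
      · obtain ⟨x, hx, hxM⟩ := hPnot M hPM
        apply hxM
        apply hQM
        exact ⟨x, hx, fun N hN => by
          rw [sub_self, zero_mul]; exact zero_mem_V (hW1res N hN)⟩
    obtain ⟨μ, hμ, h⟩ := hQ
    exact ⟨μ, hμ, fun N hN => by have := h N hN; rwa [map_one] at this⟩
  -- Step 3
  have step3 : ∀ i, ∃ μ ∈ LJ ι K, ∀ N ∈ W, (y i * (1 - ι μ1) - ι μ) * θ⁻¹ ∈ V ι N := by
    intro i
    obtain ⟨f, hf⟩ : ∃ f, f = y i * (1 - ι μ1) := ⟨_, rfl⟩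
    rw [← hf]
    let Q : Ideal A :=
      { carrier := {a | ∃ μ ∈ LJ ι K, ∀ N ∈ W, (ι a * f - ι μ) * θ⁻¹ ∈ V ι N}
        zero_mem' := ⟨0, (LJ ι K).zero_mem, fun N hN => by
          rw [map_zero, zero_mul, sub_self, zero_mul]; exact zero_mem_V (hWres N hN)⟩
        add_mem' := by
          rintro a b ⟨μ, hμ, h⟩ ⟨μ', hμ', h'⟩
          refine ⟨μ + μ', (LJ ι K).add_mem hμ hμ', fun N hN => ?_⟩
          have : (ι (a + b) * f - ι (μ + μ')) * θ⁻¹ =
              (ι a * f - ι μ) * θ⁻¹ + (ι b * f - ι μ') * θ⁻¹ := by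
            rw [map_add, map_add]; noncomm_ring
          rw [this]
          exact V_add hL (hWres N hN) (h N hN) (h' N hN)
        smul_mem' := by
          rintro c a ⟨μ, hμ, h⟩
          refine ⟨c * μ, (LJ ι K).mul_mem_left c hμ, fun N hN => ?_⟩
          have : (ι (c • a) * f - ι (c * μ)) * θ⁻¹ = ι c * ((ι a * f - ι μ) * θ⁻¹) := by
            rw [smul_eq_mul, map_mul, map_mul]; noncomm_ring
          rw [this]
          exact V_mul hL (hWres N hN) (map_mem_V (hWres N hN) c) (h N hN) }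
    have hQ : (1 : A) ∈ Q := by
      by_contra hQ
      obtain ⟨M, hM, hQM⟩ := exists_res_of_left hL Q hQ
      by_cases hZ : InZ ι K M
      · have hθM := T2 M hM hZ
        obtain ⟨s, hs, h⟩ := closed_step hι hR hL hWres hWcl hM (d := f * θ⁻¹) (fun N hN => by
          have hNr := hWres N hN
          have hyN := yV N hNr (hWZ N hN) i
          by_cases hN1 : N ∈ W1
          · refine V_sub_VV_right hι hR hM hNr ?_
            rw [hf, mul_assoc]
            exact V_mul hL hNr hyN (hμ1W N hN1)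
          · rcases hW1c N hN hN1 with hT | hC
            · refine tame_mul hι hR hL hNr hM hT ?_ hθM
              rw [hf]
              refine V_mul hL hNr hyN (V_sub hL hNr (one_mem_V hNr) (map_mem_V hNr _))
            · rw [hPC] at hC
              obtain ⟨x, hx, hPx, hxN⟩ := hC
              obtain ⟨κ, h1, h2, h3, h4⟩ := κθ x hx hPx
              obtain ⟨m, hm⟩ := hLmem μ1 hμ1 κ h1
              obtain ⟨m', hm'⟩ := hy i κ h1
              have h5 : κ⁻¹ * ((1 - ι μ1) * θ⁻¹) ∈ V ι x := by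
                have : κ⁻¹ * ((1 - ι μ1) * θ⁻¹) = κ⁻¹ * θ⁻¹ - κ⁻¹ * ι m * (κ⁻¹ * θ⁻¹) := by
                  have e1 : κ⁻¹ * ι m * (κ⁻¹ * θ⁻¹) = κ⁻¹ * ι μ1 * θ⁻¹ := by
                    rw [← hm]
                    simp only [mul_assoc]
                    rw [mul_inv_cancel_left₀ h2]
                  rw [e1]; noncomm_ring
                rw [this]
                exact V_sub hL hx h4 (V_mul hL hx (V_mul hL hx h3 (map_mem_V hx _)) h4)
              have h6 : κ⁻¹ * ((1 - ι μ1) * θ⁻¹) ∈ VV ι M N :=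
                VV_comp hι hR hL hfrac hx hNr (V_sub_VV_left hNr hθM) hxN (V_sub_VV_left hNr h5)
              have h7 := VV_mul_left hL hM (map_mem_V hM m') h6
              rw [← hm'] at h7
              have h8 : y i * κ * (κ⁻¹ * ((1 - ι μ1) * θ⁻¹)) = f * θ⁻¹ := by
                rw [hf, mul_assoc (y i) κ, mul_inv_cancel_left₀ h2, mul_assoc]
              rwa [h8] at h7)
        apply hs
        apply hQM
        refine ⟨0, (LJ ι K).zero_mem, fun N hN => ?_⟩
        rw [map_zero, sub_zero, mul_assoc]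
        exact h N hN
      · have hyM := yV M hM hZ i
        have hfM : f ∈ V ι M := by
          rw [hf]
          exact V_mul hL hM hyM (V_sub hL hM (one_mem_V hM) (map_mem_V hM _))
        have hfq : ∀ j, f * q j ∈ V ι M := by
          intro j
          obtain ⟨m, hm⟩ := hLmem μ1 hμ1 _ (hq j)
          obtain ⟨m', hm'⟩ := hy i _ (hq j)
          have : f * q j = ι m' - y i * ι m := by
            rw [hf, ← hm, ← hm']; noncomm_ring
          rw [this]
          exact V_sub hL hM (map_mem_V hM _) (V_mul hL hM hyM (map_mem_V hM _))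
        obtain ⟨s, hs, h⟩ := common_den hι hR hL hM (Fin.cons f (fun j => f * q j) : Fin (n + 1) → D)
          (by
            intro k
            refine Fin.cases ?_ (fun k => ?_) k
            · simpa using hfM
            · simpa using hfq k)
        obtain ⟨μ, hμ⟩ := h 0
        rw [Fin.cons_zero] at hμ
        apply hs
        apply hQM
        refine ⟨μ, ?_, fun N hN => ?_⟩
        · apply hqL
          intro j
          obtain ⟨m, hm⟩ := h j.succ
          rw [Fin.cons_succ] at hm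
          exact ⟨m, by rw [← hμ, mul_assoc, hm]⟩
        · rw [hμ, sub_self, zero_mul]
          exact zero_mem_V (hWres N hN)
    obtain ⟨μ, hμ, h⟩ := hQ
    exact ⟨μ, hμ, fun N hN => by have := h N hN; rwa [map_one, one_mul] at this⟩
  choose μ2 hμ2 hμ2W using step3
  -- Step 4
  obtain ⟨ks, hks⟩ : ∃ ks, ks = ι μ1 + ∑ i, q i * ι (μ2 i) := ⟨_, rfl⟩
  obtain ⟨lam, hlam⟩ : ∃ lam, lam = (1 - ks) * θ⁻¹ := ⟨_, rfl⟩
  have hlamW : ∀ N ∈ W, lam ∈ V ι N := by
    intro N hN
    have hNr := hWres N hN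
    have e1 : lam = ∑ i, q i * ((y i * (1 - ι μ1) - ι (μ2 i)) * θ⁻¹) := by
      have e2 : ∀ i, q i * ((y i * (1 - ι μ1) - ι (μ2 i)) * θ⁻¹) =
          (q i * y i) * ((1 - ι μ1) * θ⁻¹) - q i * ι (μ2 i) * θ⁻¹ := by
        intro i; noncomm_ring
      simp only [e2]
      rw [Finset.sum_sub_distrib, ← Finset.sum_mul, ← Finset.sum_mul, hqy, hlam, hks]
      noncomm_ring
    rw [e1]
    refine V_sum hL hNr _ _ fun i _ => ?_
    exact V_mul hL hNr (KV N (hWP N hN) _ (hq i)) (hμ2W i N hN)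
  let I : AddSubgroup D :=
    { carrier := {d | ∃ a, ∃ k ∈ K, d = ι a + k}
      zero_mem' := ⟨0, 0, K.zero_mem, by simp⟩
      add_mem' := by
        rintro _ _ ⟨a, k, hk, rfl⟩ ⟨a', k', hk', rfl⟩
        exact ⟨a + a', k + k', K.add_mem hk hk', by rw [map_add]; abel⟩
      neg_mem' := by
        rintro _ ⟨a, k, hk, rfl⟩
        exact ⟨-a, -k, K.neg_mem hk, by rw [map_neg]; abel⟩ }
  have hImul : ∀ d ∈ I, ∀ c, d * ι c ∈ I := by
    rintro _ ⟨a, k, hk, rfl⟩ c
    exact ⟨a * c, k * ι c, hK _ hk _, by rw [add_mul, map_mul]⟩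
  have hIK : ∀ k ∈ K, k ∈ I := fun k hk => ⟨0, k, hk, by simp⟩
  have hIA : ∀ a, ι a ∈ I := fun a => ⟨a, 0, K.zero_mem, by simp⟩
  have key : ∀ g : D, (g = 1 ∨ ∃ j, g = q j) → lam * g ∈ I := by
    intro g hg
    let B : Submodule Aᵐᵒᵖ A :=
      { carrier := {s | lam * g * ι s ∈ I}
        zero_mem' := by
          show lam * g * ι 0 ∈ I
          rw [map_zero, mul_zero]; exact I.zero_mem
        add_mem' := by
          intro x y hx hy
          show lam * g * ι (x + y) ∈ I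
          rw [map_add, mul_add]
          exact I.add_mem hx hy
        smul_mem' := by
          intro c x hx
          show lam * g * ι (x * c.unop) ∈ I
          rw [map_mul, ← mul_assoc]
          exact hImul _ hx _ }
    have hB : (1 : A) ∈ B := by
      by_contra hB
      obtain ⟨M, hM, hBM⟩ := exists_res_of_right hR B hB
      by_cases hPM : P M
      · obtain ⟨κ, h1, h2, h3, h4⟩ := gen M hM hPM
        have h5 := (T3 M hM hPM κ h1 h2 h3 h4).2
        have h6 : κ⁻¹ * g ∈ V ι M := by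
          rcases hg with rfl | ⟨j, rfl⟩
          · rw [mul_one]; exact mm_sub_V h3
          · exact h4 j
        have h7 : κ⁻¹ * (1 - ks) * κ ∈ V ι M := by
          obtain ⟨m, hm⟩ := hLmem μ1 hμ1 κ h1
          choose m2 hm2 using fun i => hLmem (μ2 i) (hμ2 i) κ h1
          have : κ⁻¹ * (1 - ks) * κ = 1 - (κ⁻¹ * ι m + ∑ i, (κ⁻¹ * q i) * ι (m2 i)) := by
            have e3 : ∑ i, (κ⁻¹ * q i) * ι (m2 i) = κ⁻¹ * (∑ i, q i * ι (μ2 i)) * κ := by
              rw [Finset.mul_sum, Finset.sum_mul]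
              refine Finset.sum_congr rfl fun i _ => ?_
              rw [← hm2]; simp only [mul_assoc]
            rw [e3, ← hm, hks, mul_sub, sub_mul, mul_one, inv_mul_cancel₀ h2]
            noncomm_ring
          rw [this]
          refine V_sub hL hM (one_mem_V hM) (V_add hL hM ?_ ?_)
          · exact V_mul hL hM (mm_sub_V h3) (map_mem_V hM _)
          · exact V_sum hL hM _ _ fun i _ => V_mul hL hM (h4 i) (map_mem_V hM _)
        have h8 : κ⁻¹ * (lam * g) ∈ V ι M := by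
          have : κ⁻¹ * (lam * g) = (κ⁻¹ * (1 - ks) * κ) * (κ⁻¹ * θ⁻¹ * κ) * (κ⁻¹ * g) := by
            rw [hlam]
            simp only [mul_assoc]
            rw [mul_inv_cancel_left₀ h2, mul_inv_cancel_left₀ h2]
          rw [this]
          exact V_mul hL hM (V_mul hL hM h7 h5) h6
        obtain ⟨s, hs, b, hb⟩ := V_right hι hR hM h8
        apply hs
        apply hBM
        show lam * g * ι s ∈ I
        have : lam * g * ι s = κ * ι b := by
          rw [← hb, mul_assoc κ⁻¹, mul_inv_cancel_left₀ h2]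
        rw [this]
        exact hIK _ (hK _ h1 _)
      · have h6 : g ∈ V ι M := by
          rcases hg with rfl | ⟨j, rfl⟩
          · exact one_mem_V hM
          · exact KV M hPM _ (hq j)
        have h7 : lam ∈ V ι M := by
          by_cases hMW : M ∈ W
          · exact hlamW M hMW
          · have h8 : θ⁻¹ ∈ V ι M := by
              by_contra h8
              apply hMW
              rw [hWdef]
              exact ⟨hM, hPM, h8⟩
            rw [hlam, hks]
            refine V_mul hL hM (V_sub hL hM (one_mem_V hM) (V_add hL hM (map_mem_V hM _) ?_)) h8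
            exact V_sum hL hM _ _ fun i _ =>
              V_mul hL hM (KV M hPM _ (hq i)) (map_mem_V hM _)
        obtain ⟨s, hs, b, hb⟩ := V_right hι hR hM (V_mul hL hM h7 h6)
        apply hs
        apply hBM
        show lam * g * ι s ∈ I
        rw [hb]
        exact hIA b
    have : lam * g * ι 1 ∈ I := hB
    rwa [map_one, mul_one] at this
  obtain ⟨a0, k0, hk0, hlam0⟩ := key 1 (Or.inl rfl)
  rw [mul_one] at hlam0
  choose aq kq hkq hlamq using fun i => key (q i) (Or.inr ⟨i, rfl⟩)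
  refine ⟨μ1 + (a0 * l + ∑ i, aq i * β i), ?_, ?_⟩
  · refine (LJ ι K).add_mem hμ1 ((LJ ι K).add_mem ((LJ ι K).mul_mem_left _ hl) ?_)
    exact (LJ ι K).sum_mem fun i _ => (LJ ι K).mul_mem_left _ (βL i)
  · have e1 : ι (1 - (μ1 + (a0 * l + ∑ i, aq i * β i))) =
        ∑ i, q i * ι (μ2 i) + (k0 * ι l + ∑ i, kq i * ι (β i)) := by
      have e2 : 1 - ks = lam * θ := by rw [hlam, inv_mul_cancel_right₀ hθ0]
      have e3 : lam * θ = (ι a0 + k0) * ι l + ∑ i, (ι (aq i) + kq i) * ι (β i) := by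
        rw [hθ, mul_add, Finset.mul_sum]
        congr 1
        · rw [hlam0]
        · refine Finset.sum_congr rfl fun i _ => ?_
          rw [← mul_assoc, hlamq]
      have e4 : ∑ i, (ι (aq i) + kq i) * ι (β i) =
          ι (∑ i, aq i * β i) + ∑ i, kq i * ι (β i) := by
        rw [map_sum, ← Finset.sum_add_distrib]
        refine Finset.sum_congr rfl fun i _ => ?_
        rw [add_mul, map_mul]
      rw [e3, e4, hks] at e2
      rw [map_sub, map_one, map_add, map_add, map_mul]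
      have e5 : (1 : D) = ι μ1 + ∑ i, q i * ι (μ2 i) +
          ((ι a0 + k0) * ι l + (ι (∑ i, aq i * β i) + ∑ i, kq i * ι (β i))) := by
        rw [← e2]; abel
      rw [e5, add_mul]
      abel
    rw [e1]
    refine K.add_mem (K.sum_mem fun i _ => hK _ (hq i) _) (K.add_mem (hK _ hk0 _) ?_)
    exact K.sum_mem fun i _ => hK _ (hkq i) _

end main

end Pool.Agent.H34.Dist
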