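import Mathlib
import Pool.Agent.H34.Dist.Main

/-!
# From the main step to all finitely generated ideals
-/

universe u

namespace Pool.Agent.H34.Dist

open Pool.Agent.H8.Dist

section fg
variable {A : Type u} [Ring A] {D : Type u} [DivisionRing D] {ι : A →+* D}

theorem LJ_of_gen {n : ℕ} (a : A) (ha : ι a ≠ 0) (b : Fin n → A) (x : A)
    (h : ∀ i, ∃ m, ι x * ((ι a)⁻¹ * ι (b i)) = ι m) : x ∈ LJ ι (JI ι a b) := by
  choose m hm using h
  exact mem_LJ_JI ι a ha b x m (fun i => by rw [mul_assoc]; exact hm i)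

/-- the main step for `J = a⁻¹ (∑ b_i A)` with a dual basis of the `b_i` -/
theorem PJ_of_DB (hι : Function.Injective ι) (hR : RD A) (hL : LD A)
    (hfrac : ∀ d : D, ∃ a b : A, a ≠ 0 ∧ ι a * d = ι b) (hcov : Cov A) {n : ℕ} (a : A)
    (ha : a ≠ 0) (b : Fin n → A) (x : Fin n → D) (hx1 : ∀ k i, ∃ m, x k * ι (b i) = ι m)
    (hx2 : ∑ k, ι (b k) * x k = 1) :
    ∃ ψ ∈ LJ ι (JI ι a b), ι (1 - ψ) ∈ JI ι a b := by
  have ha' : ι a ≠ 0 := fun h => ha (hι (by rw [h, map_zero]))
  refine PK hι hR hL hfrac hcov (JI ι a b) (JI_mul ι a b) (fun i => (ι a)⁻¹ * ι (b i))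
    (fun i => x i * ι a) (gen_mem_JI ι a ha' b) (fun z hz => LJ_of_gen a ha' b z hz) ?_ ?_
  · rintro i k ⟨c, hc⟩
    choose m hm using fun j => hx1 i j
    refine ⟨∑ j, m j * c j, ?_⟩
    rw [mul_assoc, hc, map_sum, Finset.mul_sum, map_sum]
    refine Finset.sum_congr rfl fun j _ => ?_
    rw [map_mul, ← mul_assoc, hm, map_mul]
  · have : ∀ i, (ι a)⁻¹ * ι (b i) * (x i * ι a) = (ι a)⁻¹ * (ι (b i) * x i) * ι a := by
      intro i; simp only [mul_assoc]
    simp only [this]
    rw [← Finset.sum_mul, ← Finset.mul_sum, hx2, mul_one, inv_mul_cancel₀ ha']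

theorem DB_all' [IsDomain A] (hι : Function.Injective ι) (hR : RD A) (hL : LD A)
    (hfrac : ∀ d : D, ∃ a b : A, a ≠ 0 ∧ ι a * d = ι b) (hcov : Cov A) :
    ∀ {n : ℕ} (a : Fin n → A), DB ι a := by
  intro n
  induction n with
  | zero => intro a; left; intro i; exact i.elim0
  | succ n ih =>
    intro a
    obtain ⟨b, hb⟩ : ∃ b : Fin n → A, b = fun i => a i.succ := ⟨_, rfl⟩
    have hb' : ∀ i, a i.succ = b i := fun i => by rw [hb]
    obtain ⟨a0, ha0⟩ : ∃ a0, a0 = a 0 := ⟨_, rfl⟩
    rcases ih b with h0 | ⟨x, hx1, hx2⟩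
    · by_cases ha : a0 = 0
      · left
        intro i
        refine Fin.cases ?_ (fun i => ?_) i
        · rw [← ha0, ha]
        · rw [hb', h0]
      · right
        have ha' : ι a0 ≠ 0 := fun h => ha (hι (by rw [h, map_zero]))
        refine ⟨Fin.cons (ι a0)⁻¹ (fun _ => 0), ?_, ?_⟩
        · intro k i
          refine Fin.cases ?_ (fun k => ?_) k
          · refine Fin.cases ?_ (fun i => ?_) i
            · exact ⟨1, by rw [Fin.cons_zero, ← ha0, inv_mul_cancel₀ ha', map_one]⟩
            · exact ⟨0, by rw [hb', h0]; simp⟩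
          · exact ⟨0, by simp⟩
        · rw [Fin.sum_univ_succ]
          simp [← ha0, mul_inv_cancel₀ ha']
    · right
      by_cases ha : a0 = 0
      · refine ⟨Fin.cons 0 x, ?_, ?_⟩
        · intro k i
          refine Fin.cases ?_ (fun k => ?_) k
          · exact ⟨0, by simp⟩
          · refine Fin.cases ?_ (fun i => ?_) i
            · exact ⟨0, by rw [← ha0, ha]; simp⟩
            · rw [Fin.cons_succ, hb']; exact hx1 k i
        · rw [Fin.sum_univ_succ]
          simp [hb', hx2]
      · have ha' : ι a0 ≠ 0 := fun h => ha (hι (by rw [h, map_zero]))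
        obtain ⟨ψ, hψ, hy⟩ := PJ_of_DB hι hR hL hfrac hcov a0 ha b x hx1 hx2
        have hyJ := yJ_sub ι hι hR a0 ha b ψ hψ hy
        -- `x k * (elements of b A) ∈ A`
        have hxI : ∀ k, ∀ c : Fin n → A, ∃ m, x k * ι (∑ i, b i * c i) = ι m := by
          intro k c
          choose m hm using hx1 k
          refine ⟨∑ i, m i * c i, ?_⟩
          rw [map_sum, Finset.mul_sum, map_sum]
          refine Finset.sum_congr rfl fun i _ => ?_
          rw [map_mul, ← mul_assoc, hm, map_mul]
        refine ⟨Fin.cons (ι ψ * (ι a0)⁻¹) (fun k => x k * (ι a0 * ι (1 - ψ) * (ι a0)⁻¹)),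
          ?_, ?_⟩
        · intro k i
          refine Fin.cases ?_ (fun k => ?_) k
          · rw [Fin.cons_zero]
            refine Fin.cases ?_ (fun i => ?_) i
            · exact ⟨ψ, by rw [← ha0, inv_mul_cancel_right₀ ha']⟩
            · rw [hb', mul_assoc]
              exact hψ _ (gen_mem_JI ι a0 ha' b i)
          · rw [Fin.cons_succ]
            refine Fin.cases ?_ (fun i => ?_) i
            · rw [← ha0, mul_assoc, inv_mul_cancel_right₀ ha']
              obtain ⟨c, hc⟩ := hy
              rw [hc]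
              exact hxI k c
            · rw [hb']
              obtain ⟨c, hc⟩ := hyJ _ (gen_mem_JI ι a0 ha' b i)
              have : x k * (ι a0 * ι (1 - ψ) * (ι a0)⁻¹) * ι (b i) =
                  x k * (ι a0 * (ι (1 - ψ) * ((ι a0)⁻¹ * ι (b i)))) := by
                simp only [mul_assoc]
              rw [this, hc]
              exact hxI k c
        · rw [Fin.sum_univ_succ]
          simp only [Fin.cons_zero, Fin.cons_succ, hb', ← ha0]
          have e1 : ∑ k, ι (b k) * (x k * (ι a0 * ι (1 - ψ) * (ι a0)⁻¹)) =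
              ι a0 * ι (1 - ψ) * (ι a0)⁻¹ := by
            simp only [← mul_assoc]
            simp only [← Finset.sum_mul]
            rw [hx2, one_mul]
          rw [e1, map_sub, map_one]
          have : ι a0 * (ι ψ * (ι a0)⁻¹) + ι a0 * (1 - ι ψ) * (ι a0)⁻¹ =
              ι a0 * (ι a0)⁻¹ := by noncomm_ring
          rw [this, mul_inv_cancel₀ ha']

end fg

section frac
variable {A : Type u} [Ring A] [IsDomain A]

open OreLocalization in
/-- the division ring of left fractions -/
theorem exists_frac (hL : LD A) :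
    ∃ (D : Type u) (_ : DivisionRing D) (ι : A →+* D), Function.Injective ι ∧
      ∀ d : D, ∃ a b : A, a ≠ 0 ∧ ι a * d = ι b := by
  classical
  have hore : Nonempty (OreSet (nonZeroDivisors A)) := by
    rw [nonempty_oreSet_iff_of_noZeroDivisors]
    intro r s
    have hs : (s : A) ≠ 0 := nonZeroDivisors.coe_ne_zero s
    obtain ⟨x, y, z, h1, h2⟩ := hL r s
    by_cases hx : x = 0
    · subst hx
      have hz : z ≠ 0 := by
        rintro rfl
        apply hs
        simp at h2
      exact ⟨1, ⟨z, mem_nonZeroDivisors_of_ne_zero hz⟩, by simpa using h2.symm⟩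
    · exact ⟨y, ⟨x, mem_nonZeroDivisors_of_ne_zero hx⟩, by simpa using h1⟩
  obtain ⟨hore⟩ := hore
  let _ := hore
  refine ⟨OreLocalization (nonZeroDivisors A) A, inferInstance,
    OreLocalization.numeratorRingHom, ?_, ?_⟩
  · exact numeratorHom_inj (fun x hx => hx.1)
  · intro d
    induction d using OreLocalization.ind with
    | _ r s =>
      refine ⟨s, r, nonZeroDivisors.coe_ne_zero s, ?_⟩
      show ((s : A) /ₒ (1 : nonZeroDivisors A)) * (r /ₒ s) = r /ₒ (1 : nonZeroDivisors A)
      exact OreLocalization.mul_cancel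

end frac

section op
variable {A : Type u} [Ring A] [IsDomain A]

/-- all dual bases over `A`, from the covering hypothesis for the opposite ring -/
theorem all_of_op (hR : RD A) (hL : LD A) (hcov : Cov Aᵐᵒᵖ) :
    ∃ (D : Type u) (_ : DivisionRing D) (ι : A →+* D), Function.Injective ι ∧
      (∀ {n : ℕ} (b : Fin n → A), DB ι b) ∧ (∀ {n : ℕ} (b : Fin n → A), DBl ι b) := by
  obtain ⟨D, _, ι, hι, hfrac⟩ := exists_frac (LD_op hR)
  have hDB : ∀ {n : ℕ} (a : Fin n → Aᵐᵒᵖ), DB ι a :=
    DB_all' hι (RD_op hL) (LD_op hR) hfrac hcov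
  have hDBl : ∀ {n : ℕ} (a : Fin n → Aᵐᵒᵖ), DBl ι a :=
    DBl_all ι hι (RD_op hL) (LD_op hR) hDB
  let κ : A →+* Dᵐᵒᵖ :=
    { toFun := fun a => MulOpposite.op (ι (MulOpposite.op a))
      map_one' := by simp
      map_mul' := fun x y => by simp
      map_zero' := by simp
      map_add' := fun x y => by simp }
  have hκ : ∀ a, κ a = MulOpposite.op (ι (MulOpposite.op a)) := fun _ => rfl
  refine ⟨Dᵐᵒᵖ, inferInstance, κ, ?_, ?_, ?_⟩
  · intro x y hxy
    apply MulOpposite.op_injective
    apply hι
    exact MulOpposite.op_injective hxy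
  · intro n b
    rcases hDBl (fun i => MulOpposite.op (b i)) with h | ⟨x, h1, h2⟩
    · left
      intro i
      exact MulOpposite.op_injective (h i)
    · right
      refine ⟨fun k => MulOpposite.op (x k), ?_, ?_⟩
      · intro k i
        obtain ⟨m, hm⟩ := h1 k i
        refine ⟨m.unop, ?_⟩
        rw [hκ, hκ, ← MulOpposite.op_mul, hm, MulOpposite.op_unop]
      · apply MulOpposite.unop_injective
        rw [Finset.unop_sum, MulOpposite.unop_one, ← h2]
        refine Finset.sum_congr rfl fun k _ => ?_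
        rw [hκ, ← MulOpposite.op_mul, MulOpposite.unop_op]
  · intro n b
    rcases hDB (fun i => MulOpposite.op (b i)) with h | ⟨x, h1, h2⟩
    · left
      intro i
      exact MulOpposite.op_injective (h i)
    · right
      refine ⟨fun k => MulOpposite.op (x k), ?_, ?_⟩
      · intro k i
        obtain ⟨m, hm⟩ := h1 k i
        refine ⟨m.unop, ?_⟩
        rw [hκ, hκ, ← MulOpposite.op_mul, hm, MulOpposite.op_unop]
      · apply MulOpposite.unop_injective
        rw [Finset.unop_sum, MulOpposite.unop_one, ← h2]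
        refine Finset.sum_congr rfl fun k _ => ?_
        rw [hκ, ← MulOpposite.op_mul, MulOpposite.unop_op]

end op

end Pool.Agent.H34.Dist
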